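import Mathlib
import Pool.Agent.H54.S216
import Pool.Agent.H54.S2304

namespace Pool.Agent.Results.MP_e1e815_nt.Int

open Nat Finset Pool.Agent.H54

/-- the normalised sum `a_n` -/
def a (n : ℕ) : ℚ :=
  1 / (n * (2 * n + 1) * ((2 * n).choose n : ℚ)) *
    ∑ j ∈ range n, 216 ^ (n - 1 - j) * (6 * j + 1) * ((2 * j).choose j : ℚ) ^ 2 * ((3 * j).choose j : ℚ)

/-- the normalised sum `b_n` -/
def b (n : ℕ) : ℚ :=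
  1 / (2 * n * (2 * n + 1) * ((2 * n).choose n : ℚ)) *
    ∑ j ∈ range n, 2304 ^ (n - 1 - j) * (8 * j + 1) * (((4 * j)! : ℚ) / (j ! : ℚ) ^ 4)

theorem result (n : ℕ) (hn : 1 < n) :
    ((¬ ∃ m : ℕ, 2 * n + 1 = 3 ^ m) → (∃ z : ℤ, a n = z) ∧ (∃ z : ℤ, b n = z)) ∧
    ((∃ m : ℕ, 2 * n + 1 = 3 ^ m) →
      (∃ z : ℤ, 3 * a n = z ∧ ¬ 3 ∣ z) ∧ (∃ z : ℤ, 3 * b n = z ∧ ¬ 3 ∣ z)) := by
  obtain ⟨n, rfl⟩ : ∃ m, n = m + 2 := ⟨n - 2, by omega⟩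
  obtain ⟨x, h1, h2⟩ := S216.main n
  obtain ⟨y, h3, h4⟩ := S2304.main n
  replace h1 : 3 * a (n + 2) = x := by rw [← h1, a, S216.S]; ring
  replace h3 : 3 * b (n + 2) = y := by rw [← h3, b, S2304.S]; ring
  refine ⟨fun h => ?_, fun hm => ⟨⟨x, h1, fun h => h2.1 h hm⟩, y, h3, fun h => h4.1 h hm⟩⟩
  obtain ⟨c, rfl⟩ := h2.2 h
  obtain ⟨d, rfl⟩ := h4.2 h
  exact ⟨⟨c, by push_cast at h1; linarith⟩, d, by push_cast at h3; linarith⟩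

end Pool.Agent.Results.MP_e1e815_nt.Int
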